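import Pool.Agent.Lib.H32W.PairsGen
import Pool.Agent.Lib.H32D.Lit

set_option autoImplicit false

/-!
# Straus' question for an open dense set of n-gons

For every `n` the polygons with `n` vertices that are illuminable from some point contain an open
dense set of `n`-gons, and a dense `G_δ` set of `n`-gons is illuminable from almost every point.
-/

namespace Pool.Agent.Results.MP_273810_co.OpenDense

open Set MeasureTheory

/-- `P` is the polygon with the vertices `v 0, …, v (n-1)` in cyclic order: the sides
`[v i, v (i+1)]` form a simple closed polygonal curve, and `P` is the closed bounded region with this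
boundary (a compact set whose frontier is the curve, and which is the closure of its interior, which
is connected). -/
structure IsPolygon {n : ℕ} (P : Set ℂ) (v : ZMod n → ℂ) : Prop where
  three_le : 3 ≤ n
  inj : Function.Injective v
  simple : ∀ i j, i ≠ j → segment ℝ (v i) (v (i + 1)) ∩ segment ℝ (v j) (v (j + 1)) ⊆
    ({v i, v (i + 1)} : Set ℂ) ∩ {v j, v (j + 1)}
  compact : IsCompact P
  connected : IsConnected (interior P)
  closure_interior : closure (interior P) = P
  frontier_eq : frontier P = ⋃ i, segment ℝ (v i) (v (i + 1))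

/-- The mirror image of the direction `d` in a line with the direction `u ≠ 0`. -/
noncomputable def refl (u d : ℂ) : ℂ := u / (starRingEnd ℂ) u * (starRingEnd ℂ) d

/-- `Ray P v q z d`: in the polygon `P` with the vertices `v i`, a light ray that starts at `q`
arrives at the point `z` with the direction `d`. The ray consists of finitely many straight pieces
which, end points excluded, lie in the interior of `P`; it is reflected at points in the relative
interior of a side, and it never continues after a vertex. -/
inductive Ray {n : ℕ} (P : Set ℂ) (v : ZMod n → ℂ) (q : ℂ) : ℂ → ℂ → Prop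
  | start (z : ℂ) (hz : z ≠ q) (h : openSegment ℝ q z ⊆ interior P) : Ray P v q z (z - q)
  | bounce (z d w : ℂ) (i : ZMod n) (t : ℝ) (hr : Ray P v q z d)
      (hz : z ∈ openSegment ℝ (v i) (v (i + 1))) (ht : 0 < t)
      (hw : w = z + t * refl (v (i + 1) - v i) d) (h : openSegment ℝ z w ⊆ interior P) :
      Ray P v q w (refl (v (i + 1) - v i) d)

/-- `P` is illuminable from `q`: every point of `P` is `q` itself or is reached by a light ray
from `q`. -/
def Illuminable {n : ℕ} (P : Set ℂ) (v : ZMod n → ℂ) (q : ℂ) : Prop :=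
  ∀ y ∈ P, y = q ∨ ∃ d, Ray P v q y d

theorem toPolygon {n : ℕ} {P : Set ℂ} {v : ZMod n → ℂ} (h : IsPolygon P v) :
    Pool.Agent.Lib.H42I.IsPolygon P v :=
  ⟨h.three_le, h.inj, h.simple, h.compact, h.connected, h.closure_interior, h.frontier_eq⟩

theorem ofPolygon {n : ℕ} {P : Set ℂ} {v : ZMod n → ℂ} (h : Pool.Agent.Lib.H42I.IsPolygon P v) :
    IsPolygon P v :=
  ⟨h.three_le, h.inj, h.simple, h.compact, h.connected, h.closure_interior, h.frontier_eq⟩

theorem ofRay {n : ℕ} {P : Set ℂ} {v : ZMod n → ℂ} {q y d : ℂ}
    (h : Pool.Agent.Lib.H42I.Ray P v q y d) : Ray P v q y d := by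
  induction h with
  | start z hz h => exact Ray.start z hz h
  | bounce z d w i t hr hz ht hw h ih => exact Ray.bounce z d w i t ih hz ht hw h

theorem ofIlluminable {n : ℕ} {P : Set ℂ} {v : ZMod n → ℂ} {q : ℂ}
    (h : Pool.Agent.Lib.H42I.Illuminable P v q) : Illuminable P v q := by
  intro y hy
  rcases h y hy with h | ⟨d, hd⟩
  · exact Or.inl h
  · exact Or.inr ⟨d, ofRay hd⟩

/-- For every `n` there is an open set `O` of pairs (an `n`-tuple `v` of points, a point `q`) such
that for `(v, q) ∈ O` there is exactly one polygon with the vertices `v`, the point `q` is an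
interior point of it, and it is illuminable from `q`; and for a dense `G_δ` set `G` in the space of
the vertex tuples of all polygons with `n` vertices, almost every point `q` of the polygon with the
vertices `v ∈ G` satisfies `(v, q) ∈ O`. -/
theorem result (n : ℕ) :
    ∃ O : Set ((ZMod n → ℂ) × ℂ), IsOpen O ∧
      (∀ v q, (v, q) ∈ O → (∃! P : Set ℂ, IsPolygon P v) ∧
        ∀ P : Set ℂ, IsPolygon P v → q ∈ interior P ∧ Illuminable P v q) ∧
      ∃ G : Set (ZMod n → ℂ), IsGδ G ∧ G ⊆ {v | ∃ P, IsPolygon P v} ∧
        {v | ∃ P, IsPolygon P v} ⊆ closure G ∧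
        ∀ v ∈ G, (∃ q, (v, q) ∈ O) ∧
          ∀ P : Set ℂ, IsPolygon P v → volume (P \ {q | (v, q) ∈ O}) = 0 := by
  by_cases hn : n = 0
  · refine ⟨∅, isOpen_empty, fun v q h => absurd h (notMem_empty _), ∅, isOpen_empty.isGδ,
      empty_subset _, ?_, fun v hv => absurd hv (notMem_empty v)⟩
    rintro v ⟨P, hP⟩
    have := hP.three_le
    omega
  · have : NeZero n := ⟨hn⟩
    obtain ⟨O, hO, h1, G, hG, hGT, hGd, h2⟩ :=
      Pool.Agent.Lib.H32W.pairs_generic (n := n) Pool.Agent.Lib.H32D.classLitAE
    refine ⟨O, hO, fun v q hvq => ?_, G, hG, fun v hv => ?_, fun v hv => hGd ?_,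
      fun v hv => ⟨?_, fun P hP => ?_⟩⟩
    · obtain ⟨⟨P, hP, hu⟩, h⟩ := h1 v q hvq
      exact ⟨⟨P, ofPolygon hP, fun Q hQ => hu Q (toPolygon hQ)⟩, fun Q hQ =>
        ⟨(h Q (toPolygon hQ)).1, ofIlluminable (h Q (toPolygon hQ)).2⟩⟩
    · obtain ⟨P, hP⟩ := hGT hv
      exact ⟨P, ofPolygon hP⟩
    · obtain ⟨P, hP⟩ := hv
      exact ⟨P, toPolygon hP⟩
    · -- the polygon has a positive area
      by_contra hne
      push Not at hne
      obtain ⟨P, hP⟩ := hGT hv
      have h3 := h2 v hv P hP
      have h4 : P \ {q | (v, q) ∈ O} = P := by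
        ext q
        simp only [mem_sdiff, mem_ofPred_eq, and_iff_left_iff_imp]
        exact fun _ => hne q
      rw [h4] at h3
      have h5 : 0 < volume (interior P) :=
        isOpen_interior.measure_pos volume hP.connected.nonempty
      exact absurd (measure_mono_null interior_subset h3) h5.ne'
    · exact h2 v hv P (toPolygon hP)

end Pool.Agent.Results.MP_273810_co.OpenDense
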