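import Pool.Agent.Lib.H82R.FamilyRot
import Pool.Agent.Lib.H52W.MemQ
import Pool.Agent.Lib.H52W.Jordan
import Pool.Agent.Lib.H82R.Unif
import Pool.Agent.Lib.H82R.Area

set_option autoImplicit false

/-!
# Straus' question for open families of polygons with arbitrary angles

Every polygon whose vertices are sufficiently close to those of a polygon all of whose angles are
multiples of a right angle (with arbitrary side lengths) is illuminable from some point, in fact
from all of its points outside a set of small area. The angles of the nearby polygons are arbitrary;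
in general they are no rational multiples of a half turn.
-/

namespace Pool.Agent.Results.MP_273810_co.OpenFamilies

open Set MeasureTheory

/-- `P` is the polygon with the vertices `v 0, …, v (n-1)` in cyclic order: the sides
`[v i, v (i+1)]` form a simple closed polygonal curve, and `P` is the closed bounded region with this
boundary (a compact set whose frontier is the curve, and which is the closure of its interior, which
is connected). -/
structure IsPolygon {n : ℕ} (P : Set ℂ) (v : ZMod n → ℂ) : Prop where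
  three_le : 3 ≤ n
  inj : Function.Injective v
  simple : ∀ i j, i ≠ j → segment ℝ (v i) (v (i + 1)) ∩ segment ℝ (v j) (v (j + 1)) ⊆
    ({v i, v (i + 1)} : Set ℂ) ∩ {v j, v (j + 1)}
  compact : IsCompact P
  connected : IsConnected (interior P)
  closure_interior : closure (interior P) = P
  frontier_eq : frontier P = ⋃ i, segment ℝ (v i) (v (i + 1))

/-- The mirror image of the direction `d` in a line with the direction `u ≠ 0`. -/
noncomputable def refl (u d : ℂ) : ℂ := u / (starRingEnd ℂ) u * (starRingEnd ℂ) d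

/-- `Ray P v q z d`: in the polygon `P` with the vertices `v i`, a light ray that starts at `q`
arrives at the point `z` with the direction `d`. The ray consists of finitely many straight pieces
which, end points excluded, lie in the interior of `P`; it is reflected at points in the relative
interior of a side, and it never continues after a vertex. -/
inductive Ray {n : ℕ} (P : Set ℂ) (v : ZMod n → ℂ) (q : ℂ) : ℂ → ℂ → Prop
  | start (z : ℂ) (hz : z ≠ q) (h : openSegment ℝ q z ⊆ interior P) : Ray P v q z (z - q)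
  | bounce (z d w : ℂ) (i : ZMod n) (t : ℝ) (hr : Ray P v q z d)
      (hz : z ∈ openSegment ℝ (v i) (v (i + 1))) (ht : 0 < t)
      (hw : w = z + t * refl (v (i + 1) - v i) d) (h : openSegment ℝ z w ⊆ interior P) :
      Ray P v q w (refl (v (i + 1) - v i) d)

/-- `P` is illuminable from `q`: every point of `P` is `q` itself or is reached by a light ray
from `q`. -/
def Illuminable {n : ℕ} (P : Set ℂ) (v : ZMod n → ℂ) (q : ℂ) : Prop :=
  ∀ y ∈ P, y = q ∨ ∃ d, Ray P v q y d

theorem toPolygon {n : ℕ} {P : Set ℂ} {v : ZMod n → ℂ} (h : IsPolygon P v) :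
    Pool.Agent.Lib.H42I.IsPolygon P v :=
  ⟨h.three_le, h.inj, h.simple, h.compact, h.connected, h.closure_interior, h.frontier_eq⟩

theorem ofPolygon {n : ℕ} {P : Set ℂ} {v : ZMod n → ℂ} (h : Pool.Agent.Lib.H42I.IsPolygon P v) :
    IsPolygon P v :=
  ⟨h.three_le, h.inj, h.simple, h.compact, h.connected, h.closure_interior, h.frontier_eq⟩

theorem ofRay {n : ℕ} {P : Set ℂ} {v : ZMod n → ℂ} {q y d : ℂ}
    (h : Pool.Agent.Lib.H42I.Ray P v q y d) : Ray P v q y d := by
  induction h with
  | start z hz h => exact Ray.start z hz h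
  | bounce z d w i t hr hz ht hw h ih => exact Ray.bounce z d w i t ih hz ht hw h

/-- Let `P` be a polygon with the vertices `v i` in which any two consecutive sides are perpendicular
or parallel (all angles are 90, 270 or 180 degrees; the side lengths are arbitrary). For every
`η > 0` there are a nonempty compact set `K` in the interior of `P` and `ε > 0` such that every tuple
of points `v' i` closer than `ε` to the corresponding vertices `v i` of `P` is the tuple of the
vertices of exactly one polygon `P'`, and for this polygon the part of `P'` outside `K` has area less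
than `η`, and `P'` is illuminable from every point `q'` closer than `ε` to some point of `K`; all
these `q'` are interior points of `P'`. (So `P'` is illuminable from an interior point, in fact from
all its points but a set of area less than `η`.) -/
theorem result {n : ℕ} {P : Set ℂ} {v : ZMod n → ℂ} (hP : IsPolygon P v)
    (hs : ∀ i, ((v (i + 1) - v i) * (starRingEnd ℂ) (v i - v (i - 1))).re = 0 ∨
      ((v (i + 1) - v i) * (starRingEnd ℂ) (v i - v (i - 1))).im = 0) (η : ℝ) (hη : 0 < η) :
    ∃ K : Set ℂ, IsCompact K ∧ K.Nonempty ∧ K ⊆ interior P ∧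
      ∃ ε > 0, ∀ v' : ZMod n → ℂ, (∀ i, ‖v' i - v i‖ < ε) →
        (∃! P' : Set ℂ, IsPolygon P' v') ∧
        ∀ P' : Set ℂ, IsPolygon P' v' → volume (P' \ K) < ENNReal.ofReal η ∧
          ∀ q' : ℂ, (∃ q ∈ K, ‖q' - q‖ < ε) → q' ∈ interior P' ∧ Illuminable P' v' q' := by
  obtain ⟨c, hc, -, A, B, hA, hB, h⟩ := Pool.Agent.Lib.H82R.family_axes (toPolygon hP) hs
  obtain ⟨K, hK, hKne, hKP, hKN, ε₁, hε₁, h1⟩ := Pool.Agent.Lib.H82R.area_set (toPolygon hP)
    (Pool.Agent.Lib.H82R.null_rot hc hA hB) η hη
  obtain ⟨ε₂, hε₂, h2⟩ := Pool.Agent.Lib.H82R.unif hK (fun q hqK => by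
    have h3 := hKN q hqK
    rw [mem_ofPred_eq, not_or] at h3
    exact h q (hKP hqK) h3.1 h3.2)
  obtain ⟨ε₃, hε₃, h3⟩ := Pool.Agent.H52W.exists_polygon_near (toPolygon hP)
  have hin : ∀ (P' : Set ℂ) (v' : ZMod n → ℂ), IsPolygon P' v' → (∀ i, ‖v' i - v i‖ < ε₂) →
      ∀ q' : ℂ, (∃ q ∈ K, ‖q' - q‖ < ε₂) → q' ∈ interior P' := fun P' v' hP' hv' q' hq' =>
    Pool.Agent.Lib.H52W.interior_of_near (toPolygon hP') (h2 P' v' (toPolygon hP') hv') hq'
  refine ⟨K, hK, hKne, fun q hq => ?_, min ε₁ (min ε₂ ε₃), lt_min hε₁ (lt_min hε₂ hε₃),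
    fun v' hv' => ?_⟩
  · exact hin P v hP (fun i => by simpa using hε₂) q ⟨q, hq, by simpa using hε₂⟩
  have hv1 : ∀ i, ‖v' i - v i‖ < ε₁ := fun i => (hv' i).trans_le (min_le_left _ _)
  have hv2 : ∀ i, ‖v' i - v i‖ < ε₂ := fun i =>
    (hv' i).trans_le ((min_le_right _ _).trans (min_le_left _ _))
  have hv3 : ∀ i, ‖v' i - v i‖ < ε₃ := fun i =>
    (hv' i).trans_le ((min_le_right _ _).trans (min_le_right _ _))
  refine ⟨?_, fun P' hP' => ⟨h1 P' v' (toPolygon hP') hv1, ?_⟩⟩
  · obtain ⟨Q, hQ⟩ := h3 v' hv3
    obtain ⟨R, hR, hR'⟩ := Pool.Agent.H52W.exists_polygon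
      (Pool.Agent.H52W.simpleV_of_polygon hQ)
    exact ⟨R, ofPolygon hR, fun S hS => hR' S (toPolygon hS)⟩
  · rintro q' ⟨q, hq, hqq⟩
    have hq2 : ∃ q ∈ K, ‖q' - q‖ < ε₂ :=
      ⟨q, hq, hqq.trans_le ((min_le_right _ _).trans (min_le_left _ _))⟩
    refine ⟨hin P' v' hP' hv2 q' hq2, fun y hy => ?_⟩
    rcases h2 P' v' (toPolygon hP') hv2 q' hq2 y hy with h4 | ⟨d, hd⟩
    · exact Or.inl h4
    · exact Or.inr ⟨d, ofRay hd⟩

end Pool.Agent.Results.MP_273810_co.OpenFamilies
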